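import Mathlib
import Pool.Agent.L7h59.VA.Cyc

/-!
# The Farrell–Jones conjecture for the virtual braid groups

`C` is any class of groups with the closure properties `ClosedE C` (it contains `ℤ`, is closed under
subgroups, finite products, free products, overgroups of finite index and directed colimits, and
satisfies the extension criterion of the Farrell–Jones conjecture) which contains the metabelian
groups and the Coxeter groups of finite rank. All this is published for the class of the groups
which satisfy the K-theoretic Farrell–Jones conjecture with coefficients in additive categories and
finite wreath products.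

`VB n` is the virtual braid group on `n + 1` strands: generators `σ i`, `ρ i` (`0 ≤ i < n`) and
the relations

* `σ i σ j = σ j σ i` for `i + 1 < j` and `σ i σ j σ i = σ j σ i σ j` for `j = i + 1`,
* `ρ i ρ i = 1`, `ρ i ρ j = ρ j ρ i` for `i + 1 < j` and `ρ i ρ j ρ i = ρ j ρ i ρ j` for `j = i + 1`,
* `σ i ρ j = ρ j σ i` if `i + 1 < j` or `j + 1 < i`, and `ρ i ρ j σ i = σ j ρ i ρ j` for `j = i + 1`.

`affA k` is the affine Coxeter matrix of type `Ã` with `k` generators (`k ≥ 3`): a cycle of length `k` with
labels `3`, all other labels being `2`.

Theorem: `VB n` is in `C` if and only if the Artin groups of type `Ã` with `3 ≤ k ≤ n + 1` generators are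
in `C`. As these Artin groups are known to satisfy the Farrell–Jones conjecture (they are subgroups
of braid groups), so do all virtual braid groups.

Outline of the proof. Let `M` be the Coxeter matrix of type `A` on `Fin n`, `W` its Coxeter group.

* The set `Ω` of the classes of the pairs `(w, s)` for the relation generated by
  `(w u, s) ~ (w, r)` (`u` the alternating word in `s`, `t` of length `M s t - 1` which ends
  in `t`, so that `u s = r u` with `r = s` or `r = t`) carries an action of `W` and an invariant Coxeter
  matrix `mh` with `mh [w, s] [w, t] = M s t` and the label infinity for all other pairs. The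
  virtual braid group is `A(mh) ⋊ W` (Rabenda, Bardakov–Bellingeri, Godelle–Paris; for all Coxeter
  matrices Bellingeri–Paris–Thiel).
* By the theorem on extensions by Artin groups (`Pool.Agent.L7h59.AR.ext`) `VB n` is in `C` if and only
  if the Artin groups of the finite sets `X` of classes without two classes with label infinity are.
* The classes are the ordered pairs `(a, b)` of different points of `{0, …, n}`: the simple ones are
  `(s, s + 1)`. Two pairs with a finite label have different sources and different targets; so a set
  `X` as above is the graph of a partial injection, which extends to a permutation `π` of the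
  points. Then `A(X)` is a subgroup of the Artin group of the matrix of `π`: label `3` for `x`, `π x`,
  label infinity for a cycle of length two, `2` otherwise. It is the product over the cycles of `π`
  of groups in `C`: Artin groups of type `Ã` with at most `n + 1` generators and free groups.
* Conversely the cycle `(0, 1), (1, 2), …, (k - 1, 0)` gives the Artin group of type `Ã` with `k`
  generators.
-/

set_option autoImplicit false

namespace Pool.Agent.Results.MP_6374fb_al.VirtualBraidGroups

open Pool.Agent.Y110.FJ (ClosedE)
open Pool.Agent.Helper703.Cox (Artin)
open Pool.Agent.L7h59.VA (VB affA)

theorem result (C : ∀ (G : Type) [Group G], Prop) (hC : ClosedE C)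
    (hmet : ∀ (G : Type) [Group G], derivedSeries G 2 = ⊥ → C G)
    (hcox : ∀ (S : Type) (_ : Finite S) (A : CoxeterMatrix S), C A.Group) (n : ℕ) :
    C (VB n) ↔ ∀ k, 3 ≤ k → k ≤ n + 1 → C (Artin (affA k)) :=
  Pool.Agent.L7h59.VA.C_VB_iff hC hmet hcox n

end Pool.Agent.Results.MP_6374fb_al.VirtualBraidGroups
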